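import Pool.Agent.Run7.h933.EOS.Par

/-!
# The equation of state of random error-correcting codes

The random `t`-error-correcting binary code of length `n` at the activity `lam` is the random code `C`
with minimum distance at least `2 t + 1` which is chosen with probability proportional to `lam ^ |C|`
(the hard-core gas of words). Let `V` be the size of a Hamming ball with radius `2 t`, and let
`2 t / n → δ`, `0 < δ < 1/2`. At the activity `s e^s / V` the mean size of the code is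
`(1 + o(1)) s 2^n / V` and the logarithm of the partition function is
`(1 + o(1)) (s + s^2 / 2) 2^n / V`, uniformly for `s e^s ≤ 2 ^ ((c(δ) - ε) n)` with an explicit
`c(δ) > 0`. The probability that `k` independent uniform words form a code with minimum distance at
least `2 t + 1` is `exp (-(1 + o(1)) k^2 V / 2^(n+1))` in the same range. At the activity
`2 ^ (x n) / V` the mean size has the exponent `1 - H(δ)` of Gilbert and Varshamov for
`0 ≤ x ≤ gain δ`, and the exponent `R(δ)` of the best codes for `x ≥ 3`.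
-/

set_option autoImplicit false

open Finset Filter Topology

namespace Pool.Agent.Results.MP_0430e4_lc.EquationOfState

/-- Codes of length `n` with minimum distance at least `d`. -/
def IsCode (n d : ℕ) (C : Finset (Fin n → Bool)) : Prop :=
  ∀ x ∈ C, ∀ y ∈ C, x ≠ y → d ≤ hammingDist x y

/-- `A(n,d)`: the largest size of a binary code of length `n` with minimum distance at least `d`. -/
noncomputable def A (n d : ℕ) : ℕ := sSup {m | ∃ C : Finset (Fin n → Bool), IsCode n d C ∧ C.card = m}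

/-- The asymptotic rate `R(δ) = limsup (1/n) log₂ A(n, ⌈δ n⌉)`. -/
noncomputable def R (δ : ℝ) : ℝ :=
  limsup (fun n : ℕ => Real.logb 2 (A n ⌈δ * n⌉₊) / n) atTop

/-- `liminf (1/n) log₂ A(n, ⌈δ n⌉)`. -/
noncomputable def Rlow (δ : ℝ) : ℝ :=
  liminf (fun n : ℕ => Real.logb 2 (A n ⌈δ * n⌉₊) / n) atTop

/-- The binary entropy function. -/
noncomputable def H (x : ℝ) : ℝ := -x * Real.logb 2 x - (1 - x) * Real.logb 2 (1 - x)

/-- Half of the difference between the exponents `H(1/2 - √(δ (1 - δ)))` of McEliece, Rodemich,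
Rumsey and Welch (first bound) and `1 - H(δ)` of Gilbert and Varshamov. -/
noncomputable def gain (δ : ℝ) : ℝ := (H (1 / 2 - √(δ * (1 - δ))) - (1 - H δ)) / 2

/-- `H(δ) - δ - (1 - δ) H(δ / (2 (1 - δ)))`: the volume of a ball with radius `δ n`, divided by the
size of the intersection of two such balls with centres at distance `δ n`, has this exponent. -/
noncomputable def loc (δ : ℝ) : ℝ := H δ - δ - (1 - δ) * H (δ / (2 * (1 - δ)))

/-- The exponent of the range of the equation of state. -/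
noncomputable def c (δ : ℝ) : ℝ := min (loc δ) (gain δ)

/-- The size `V` of a Hamming ball with radius `2 t`. -/
noncomputable def vol (n t : ℕ) : ℝ := ∑ j ∈ range (2 * t + 1), (n.choose j : ℝ)

open Classical in
/-- The partition function: the sum of `lam ^ |C|` over the codes `C` of length `n` with minimum
distance at least `2 t + 1`. -/
noncomputable def partition (n t : ℕ) (lam : ℝ) : ℝ :=
  ∑ C ∈ (univ : Finset (Finset (Fin n → Bool))).filter (IsCode n (2 * t + 1)), lam ^ C.card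

open Classical in
/-- The mean size of the random code with minimum distance at least `2 t + 1` at the activity
`lam`. -/
noncomputable def meanSize (n t : ℕ) (lam : ℝ) : ℝ :=
  (∑ C ∈ (univ : Finset (Finset (Fin n → Bool))).filter (IsCode n (2 * t + 1)),
    (C.card : ℝ) * lam ^ C.card) / partition n t lam

open Classical in
/-- The probability that `k` independent uniform words of length `n` have mutual distances at least
`2 t + 1`. -/
noncomputable def codeProb (n t k : ℕ) : ℝ :=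
  ((univ : Finset (Fin k → Fin n → Bool)).filter fun x =>
    ∀ i j, i ≠ j → 2 * t + 1 ≤ hammingDist (x i) (x j)).card / 2 ^ (n * k)

/-- The number of errors `t` for the relative distance `δ`: the number `2 t + 1` is the largest odd
number which is at most `⌈δ n⌉`. -/
noncomputable def errors (δ : ℝ) (n : ℕ) : ℕ := (⌈δ * n⌉₊ - 1) / 2

/-- The exponent of the mean size of the random code at the activity `2 ^ (x n) / V`. -/
noncomputable def gasRate (δ x : ℝ) (n : ℕ) : ℝ :=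
  Real.logb 2 (meanSize n (errors δ n) ((2 : ℝ) ^ (x * n) / vol n (errors δ n))) / n

/-! ### Translations -/

open Run7.h933.EOS

lemma fam_eq (n t : ℕ) (C : Finset (Fin n → Bool)) :
    C ∈ fam (ball n (2 * t)) univ ↔ IsCode n (2 * t + 1) C := by
  rw [mem_fam]
  unfold Ind IsCode
  simp only [mem_ball, not_le, subset_univ, true_and]
  rfl

lemma partition_eq (n t : ℕ) (lam : ℝ) : partition n t lam = ZZ n t lam := by
  unfold partition ZZ Z
  refine Finset.sum_congr ?_ fun _ _ => rfl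
  ext C
  rw [fam_eq]
  simp

lemma meanSize_eq (n t : ℕ) (lam : ℝ) : meanSize n t lam = mean n t lam := by
  unfold meanSize mean M
  rw [partition_eq]
  congr 1
  refine Finset.sum_congr ?_ fun _ _ => rfl
  ext C
  rw [fam_eq]
  simp

lemma vol_eq (n t : ℕ) : vol n t = Vol n t := rfl

lemma codeProb_eq (n t k : ℕ) : codeProb n t k = prob (ball n (2 * t)) k := by
  unfold codeProb prob
  rw [card_words, ← pow_mul]
  congr 3
  ext x
  rw [mem_tup]
  simp only [mem_filter, mem_univ, true_and, mem_ball, not_le]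
  rfl

lemma errors_eq (δ : ℝ) (n : ℕ) : errors δ n = tn δ n := rfl

lemma H_eq (x : ℝ) : H x = Real.binEntropy x / Real.log 2 := by
  unfold H Real.binEntropy Real.logb
  rw [Real.log_inv, Real.log_inv]
  ring

lemma log2_pos : 0 < Real.log 2 := Real.log_pos (by norm_num)

lemma H_mul (x : ℝ) : H x * Real.log 2 = Real.binEntropy x := by
  rw [H_eq, div_mul_cancel₀ _ log2_pos.ne']

lemma gain_mul (δ : ℝ) : gain δ * Real.log 2 = gE δ := by
  unfold gain gE
  rw [← H_mul, ← H_mul]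
  ring

lemma loc_mul (δ : ℝ) : loc δ * Real.log 2 = lE δ := by
  unfold loc lE
  rw [← H_mul, ← H_mul]
  ring

lemma c_mul (δ : ℝ) : c δ * Real.log 2 = cE δ := by
  unfold c cE
  rw [min_mul_of_nonneg _ _ log2_pos.le, gain_mul, loc_mul]

lemma two_rpow (z : ℝ) : (2 : ℝ) ^ z = Real.exp (z * Real.log 2) := by
  rw [Real.rpow_def_of_pos (by norm_num), mul_comm]

lemma A_bdd (n d : ℕ) : BddAbove {m | ∃ C : Finset (Fin n → Bool), IsCode n d C ∧ C.card = m} := by
  refine ⟨Fintype.card (Fin n → Bool), ?_⟩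
  rintro k ⟨C, -, rfl⟩
  exact Finset.card_le_univ C

lemma A_mem (n d : ℕ) : ∃ C : Finset (Fin n → Bool), IsCode n d C ∧ C.card = A n d := by
  have : A n d ∈ {m | ∃ C : Finset (Fin n → Bool), IsCode n d C ∧ C.card = m} :=
    Nat.sSup_mem ⟨0, ∅, by intro x hx; simp at hx, by simp⟩ (A_bdd n d)
  exact this

lemma card_le_A {n d : ℕ} {C : Finset (Fin n → Bool)} (hC : IsCode n d C) : C.card ≤ A n d :=
  le_csSup (A_bdd n d) ⟨C, hC, rfl⟩

lemma one_le_A (n d : ℕ) : 1 ≤ A n d := by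
  refine le_csSup (A_bdd n d) ⟨{fun _ => true}, ?_, by simp⟩
  intro x hx y hy hxy
  rw [Finset.mem_singleton] at hx hy
  exact absurd (hx.trans hy.symm) hxy

lemma A_le (n d : ℕ) : A n d ≤ 2 ^ n := by
  obtain ⟨C, -, hC⟩ := A_mem n d
  rw [← hC]
  refine (Finset.card_le_univ C).trans ?_
  simp

lemma A_anti {n d d' : ℕ} (h : d ≤ d') : A n d' ≤ A n d := by
  obtain ⟨C, hC, hC2⟩ := A_mem n d'
  rw [← hC2]
  exact card_le_A fun x hx y hy hxy => h.trans (hC x hx y hy hxy)

lemma A_odd (n t : ℕ) : A n (2 * t + 1) ≤ 2 * A n (2 * t + 2) := by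
  obtain ⟨C, hC, hC2⟩ := A_mem n (2 * t + 1)
  obtain ⟨C', -, h1, h2⟩ := half_code C hC
  rw [← hC2]
  exact h2.trans (Nat.mul_le_mul_left 2 (card_le_A h1))

lemma mean_A {n : ℕ} (t : ℕ) (hn : 2 ≤ n) {lam : ℝ} (hl : 4 ^ n ≤ lam) :
    (A n (2 * t + 1) : ℝ) / 4 ≤ meanSize n t lam ∧ meanSize n t lam ≤ A n (2 * t + 1) := by
  rw [meanSize_eq]
  refine mean_large hn (fun I hI => card_le_A ((fam_eq n t I).1 hI)) ?_ hl
  obtain ⟨C, hC, hC2⟩ := A_mem n (2 * t + 1)
  exact ⟨C, (fam_eq n t C).2 hC, hC2⟩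

lemma vol_le_two (n t : ℕ) : vol n t ≤ 2 ^ n := by
  rw [vol_eq, ← Run7.h933.EOS.vol_eq (zw n), ← card_words]
  exact_mod_cast Finset.card_le_univ _

lemma act_large {n t : ℕ} {x : ℝ} (hx : 3 ≤ x) : 4 ^ n ≤ (2 : ℝ) ^ (x * n) / vol n t := by
  have hV : 0 < vol n t := Vol_pos n t
  rw [le_div_iff₀ hV]
  have h1 : (4 : ℝ) ^ n * vol n t ≤ 4 ^ n * 2 ^ n :=
    mul_le_mul_of_nonneg_left (vol_le_two n t) (by positivity)
  refine h1.trans ?_
  have e : (4 : ℝ) ^ n * 2 ^ n = (2 : ℝ) ^ ((3 : ℝ) * n) := by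
    have e1 : (4 : ℝ) ^ n * 2 ^ n = 2 ^ (3 * n) := by
      rw [← mul_pow, pow_mul]
      norm_num
    rw [e1, ← Real.rpow_natCast]
    push_cast
    rfl
  rw [e]
  exact Real.rpow_le_rpow_of_exponent_le (by norm_num)
    (mul_le_mul_of_nonneg_right hx (Nat.cast_nonneg n))

lemma mx_eq (δ x : ℝ) (n : ℕ) :
    meanSize n (errors δ n) ((2 : ℝ) ^ (x * n) / vol n (errors δ n)) =
      mx δ (x * Real.log 2) n := by
  rw [meanSize_eq]
  unfold mx
  rw [vol_eq, errors_eq, two_rpow]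
  congr 3
  ring

lemma gasRate_eq (δ x : ℝ) (n : ℕ) : gasRate δ x n = Real.logb 2 (mx δ (x * Real.log 2) n) / n := by
  unfold gasRate
  rw [mx_eq]

/-- the rates of the gas and of the best codes at large activities -/
lemma rates {δ x : ℝ} (h0 : 0 < δ) (hx : 3 ≤ x) {n : ℕ} (hn : 2 ≤ n) :
    gasRate δ x n ≤ Real.logb 2 (A n ⌈δ * n⌉₊) / n + 1 / n ∧
    Real.logb 2 (A n ⌈δ * n⌉₊) / n ≤ gasRate δ x n + 2 / n ∧
    0 ≤ Real.logb 2 (A n ⌈δ * n⌉₊) / n ∧ Real.logb 2 (A n ⌈δ * n⌉₊) / n ≤ 1 := by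
  have hn0 : (0 : ℝ) < n := by exact_mod_cast (by omega : 0 < n)
  obtain ⟨h1, h2⟩ := mean_A (errors δ n) hn (act_large (n := n) (t := errors δ n) hx)
  have hA1 : (1 : ℝ) ≤ A n ⌈δ * n⌉₊ := by exact_mod_cast one_le_A n _
  have hA2 : (1 : ℝ) ≤ A n (2 * errors δ n + 1) := by exact_mod_cast one_le_A n _
  have hc := ceil_cases h0 (show 1 ≤ n by omega)
  have h3 : A n ⌈δ * n⌉₊ ≤ A n (2 * errors δ n + 1) := by
    rw [errors_eq]
    rcases hc with h | h <;> rw [h]
    exact A_anti (by omega)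
  have h4 : A n (2 * errors δ n + 1) ≤ 2 * A n ⌈δ * n⌉₊ := by
    rw [errors_eq]
    rcases hc with h | h <;> rw [h]
    · omega
    · exact A_odd n _
  have h3' : (A n ⌈δ * n⌉₊ : ℝ) ≤ A n (2 * errors δ n + 1) := by exact_mod_cast h3
  have h4' : (A n (2 * errors δ n + 1) : ℝ) ≤ 2 * A n ⌈δ * n⌉₊ := by exact_mod_cast h4
  have hpos : 0 < meanSize n (errors δ n) ((2 : ℝ) ^ (x * n) / vol n (errors δ n)) := by
    linarith
  have l2 : Real.logb 2 2 = 1 := Real.logb_self_eq_one (by norm_num)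
  refine ⟨?_, ?_, ?_, ?_⟩
  · unfold gasRate
    rw [← add_div]
    apply div_le_div_of_nonneg_right _ hn0.le
    have := Real.logb_le_logb_of_le (b := 2) (by norm_num) hpos (h2.trans h4')
    rw [Real.logb_mul (by norm_num) (by linarith), l2] at this
    linarith
  · unfold gasRate
    rw [← add_div]
    apply div_le_div_of_nonneg_right _ hn0.le
    have h5 : (A n ⌈δ * n⌉₊ : ℝ) ≤
        (2 * 2) * meanSize n (errors δ n) ((2 : ℝ) ^ (x * n) / vol n (errors δ n)) := by linarith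
    have := Real.logb_le_logb_of_le (b := 2) (by norm_num) (by linarith) h5
    rw [Real.logb_mul (by norm_num) hpos.ne', Real.logb_mul (by norm_num) (by norm_num), l2] at this
    linarith
  · exact div_nonneg (Real.logb_nonneg (by norm_num) hA1) hn0.le
  · rw [div_le_one hn0]
    have h5 : (A n ⌈δ * n⌉₊ : ℝ) ≤ 2 ^ n := by exact_mod_cast A_le n _
    have := Real.logb_le_logb_of_le (b := 2) (by norm_num) (by linarith) h5
    rwa [Real.logb_pow, l2, mul_one] at this

lemma ev_inv {ε C : ℝ} (hε : 0 < ε) : ∀ᶠ n : ℕ in atTop, C / (n : ℝ) ≤ ε :=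
  (tendsto_const_div_atTop_nhds_zero_nat C).eventually_le_const hε

/-- the local constant in terms of the entropy function -/
lemma KK_bound {n t : ℕ} (ht : 1 ≤ t) (htn : 4 * t ≤ n) : ∃ x : ℝ, 0 < x ∧ x ≤ 1 ∧ KK n t x ≤
    2 * (2 : ℝ) ^ (2 * (t : ℝ) + (n - 2 * t) * H (t / (n - 2 * t))) := by
  have htR : (1 : ℝ) ≤ t := by exact_mod_cast ht
  have htn' : 4 * (t : ℝ) ≤ n := by exact_mod_cast htn
  have hn0 : (0 : ℝ) < n := by linarith
  obtain ⟨δ, hδ⟩ : ∃ δ : ℝ, δ = 2 * t / n := ⟨_, rfl⟩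
  have hδ0 : 0 < δ := by rw [hδ]; positivity
  have hδ1 : δ ≤ 1 / 2 := by
    rw [hδ, div_le_iff₀ hn0]
    linarith
  have hδn : δ * n = 2 * t := by rw [hδ]; field_simp
  obtain ⟨x, h1, h2, h3⟩ := KK_le (n := n) (t := t) hδ0 hδ1 (by push_cast; rw [hδn])
  refine ⟨x, h1, h2, h3.trans (le_of_eq ?_)⟩
  rw [two_rpow]
  congr 2
  have e1 : δ / (2 * (1 - δ)) = t / (n - 2 * t) := by
    have a1 : (n : ℝ) - 2 * t ≠ 0 := by
      have : 0 < (n : ℝ) - 2 * t := by linarith
      exact this.ne'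
    have a2 : 1 - δ ≠ 0 := by
      have : 0 < 1 - δ := by linarith
      exact this.ne'
    rw [div_eq_div_iff (by positivity) a1]
    have : (n : ℝ) - 2 * t = (1 - δ) * n := by rw [← hδn]; ring
    rw [this]
    have a3 : (t : ℝ) = δ * n / 2 := by rw [hδn]; ring
    rw [a3]
    ring
  rw [e1, add_mul, mul_assoc ((n : ℝ) - 2 * t), H_mul, mul_add, ← mul_assoc, ← mul_assoc,
    mul_comm (n : ℝ) δ, hδn]
  have : (n : ℝ) * (1 - δ) = n - 2 * t := by rw [← hδn]; ring
  rw [this]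

theorem result :
    -- (0) the exponents are positive
    (∀ δ : ℝ, 0 < δ → δ < 1 / 2 → 0 < c δ ∧ 0 < gain δ) ∧
    -- (1) inequalities for every length
    (∀ (n t : ℕ) (s q : ℝ), 1 ≤ t → 4 * t ≤ n → 0 < s →
      q = 2 * (2 : ℝ) ^ (2 * (t : ℝ) + (n - 2 * t) * H (t / (n - 2 * t))) / vol n t *
        (s * Real.exp s) → q ≤ 1 →
      (1 - q) * s ≤ vol n t / 2 ^ n * meanSize n t (s * Real.exp s / vol n t) ∧
      (1 - q) * (s + s ^ 2 / 2) ≤
        vol n t / 2 ^ n * Real.log (partition n t (s * Real.exp s / vol n t))) ∧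
    -- (2) the equation of state
    (∀ δ ε : ℝ, 0 < δ → δ < 1 / 2 → 0 < ε → ∃ n₀ : ℕ, ∀ n ≥ n₀, ∀ t : ℕ, t = errors δ n →
      ∀ s : ℝ, 0 < s →
      vol n t / 2 ^ n * Real.log (partition n t (s * Real.exp s / vol n t)) ≤
        s + s ^ 2 / 2 + (2 : ℝ) ^ (-(gain δ - ε) * n) * (s * Real.exp s) ∧
      (s * Real.exp s ≤ (2 : ℝ) ^ ((c δ - ε) * n) →
        |vol n t / 2 ^ n * meanSize n t (s * Real.exp s / vol n t) - s| ≤ ε * s ∧
        |vol n t / 2 ^ n * Real.log (partition n t (s * Real.exp s / vol n t)) -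
          (s + s ^ 2 / 2)| ≤ ε * (s + s ^ 2 / 2))) ∧
    -- (3) the probability that random words form a code
    (∀ δ ε : ℝ, 0 < δ → δ < 1 / 2 → 0 < ε → ∃ n₀ : ℕ, ∀ n ≥ n₀, ∀ t : ℕ, t = errors δ n →
      ∀ k : ℕ, ε ≤ k * (vol n t / 2 ^ n) → k * (vol n t / 2 ^ n) ≤ (c δ * Real.log 2 - ε) * n →
        0 < codeProb n t k ∧
        |Real.log (codeProb n t k) + k ^ 2 * (vol n t / 2 ^ n) / 2| ≤
          ε * (k ^ 2 * (vol n t / 2 ^ n))) ∧
    -- (4) the mean size at the activity `2 ^ (x n) / V`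
    (∀ δ x : ℝ, 0 < δ → δ < 1 / 2 → 0 < x → x < c δ →
      Tendsto (fun n : ℕ => vol n (errors δ n) / 2 ^ n *
        meanSize n (errors δ n) ((2 : ℝ) ^ (x * n) / vol n (errors δ n)) / n) atTop
        (𝓝 (x * Real.log 2))) ∧
    -- (5) its exponent
    (∀ δ x : ℝ, 0 < δ → δ < 1 / 2 → 0 ≤ x → x ≤ gain δ →
      Tendsto (gasRate δ x) atTop (𝓝 (1 - H δ))) ∧
    (∀ δ x ε : ℝ, 0 < δ → δ < 1 / 2 → 0 ≤ x → 0 < ε → ∀ᶠ n : ℕ in atTop,
      1 - H δ - ε ≤ gasRate δ x n ∧ gasRate δ x n ≤ 1 - H δ + max 0 (x - gain δ) + ε) ∧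
    -- (6) comparison with the best codes
    (∀ (n t : ℕ) (lam : ℝ), 2 ≤ n → 4 ^ n ≤ lam →
      (A n (2 * t + 1) : ℝ) / 4 ≤ meanSize n t lam ∧ meanSize n t lam ≤ A n (2 * t + 1)) ∧
    (∀ δ x : ℝ, 0 < δ → δ < 1 / 2 → 3 ≤ x →
      limsup (gasRate δ x) atTop = R δ ∧ liminf (gasRate δ x) atTop = Rlow δ) := by
  have hl2 := log2_pos
  -- the two sided bound of the exponent
  have hrate : ∀ δ x ε : ℝ, 0 < δ → δ < 1 / 2 → 0 ≤ x → 0 < ε → ∀ᶠ n : ℕ in atTop,
      1 - H δ - ε ≤ gasRate δ x n ∧ gasRate δ x n ≤ 1 - H δ + max 0 (x - gain δ) + ε := by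
    intro δ x ε h0 h1 hx hε
    have hx' : 0 ≤ x * Real.log 2 := by positivity
    have hε' : 0 < ε * Real.log 2 := by positivity
    filter_upwards [mx_ge h0 h1 hx' hε', mx_le h0 h1 hx' hε', eventually_ge_atTop 1]
      with n a1 a2 a3
    have hn0 : (0 : ℝ) < n := by exact_mod_cast a3
    rw [gasRate_eq]
    have hm := mx_pos δ (x * Real.log 2) n
    have e1 : max 0 (x * Real.log 2 - gE δ) = max 0 (x - gain δ) * Real.log 2 := by
      rw [max_mul_of_nonneg _ _ hl2.le, zero_mul, sub_mul, gain_mul]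
    rw [e1, ← H_mul] at a2
    rw [← H_mul] at a1
    constructor
    · rw [le_div_iff₀ hn0, Real.logb, le_div_iff₀ hl2]
      have := Real.log_le_log (Real.exp_pos _) a1
      rw [Real.log_exp] at this
      linarith
    · rw [div_le_iff₀ hn0, Real.logb, div_le_iff₀ hl2]
      have := Real.log_le_log hm a2
      rw [Real.log_exp] at this
      linarith
  refine ⟨?_, ?_, ?_, ?_, ?_, ?_, hrate, ?_, ?_⟩
  · intro δ h0 h1
    have h2 := cE_pos h0 h1
    have h3 := gE_pos h0 h1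
    rw [← c_mul] at h2
    rw [← gain_mul] at h3
    exact ⟨pos_of_mul_pos_left h2 hl2.le, pos_of_mul_pos_left h3 hl2.le⟩
  · intro n t s q ht htn hs hq hq1
    obtain ⟨x, hx0, hx1, hx2⟩ := KK_bound ht htn
    rw [meanSize_eq, partition_eq]
    rw [hq] at hq1 ⊢
    exact ⟨mean_ge (by omega) hx0 hx1 hx2 hs hq1, pressure_ge (by omega) hx0 hx1 hx2 hs hq1⟩
  · intro δ ε h0 h1 hε
    obtain ⟨e, he⟩ : ∃ e : ℝ, e = min ε (ε * Real.log 2) := ⟨_, rfl⟩
    have he0 : 0 < e := by rw [he]; exact lt_min hε (by positivity)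
    have he1 : e ≤ ε := by rw [he]; exact min_le_left _ _
    have he2 : e ≤ ε * Real.log 2 := by rw [he]; exact min_le_right _ _
    obtain ⟨n₀, hn₀⟩ := eventually_atTop.1
      ((ev_pressure h0 h1 (show 0 < ε * Real.log 2 by positivity)).and (state h0 h1 he0))
    refine ⟨n₀, fun n hn t ht s hs => ?_⟩
    obtain ⟨a1, a2⟩ := hn₀ n hn
    rw [ht, meanSize_eq, partition_eq]
    refine ⟨?_, fun hse => ?_⟩
    · have e1 : (2 : ℝ) ^ (-(gain δ - ε) * n) = Real.exp (-(gE δ - ε * Real.log 2) * n) := by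
        rw [two_rpow, ← gain_mul]; congr 1; ring
      rw [e1]
      exact a1 s hs
    · have h2 : s * Real.exp s ≤ Real.exp ((cE δ - e) * n) := by
        refine hse.trans ?_
        rw [two_rpow]
        apply Real.exp_le_exp.2
        have h3 : (c δ - ε) * n * Real.log 2 = (cE δ - ε * Real.log 2) * n := by
          rw [← c_mul]; ring
        rw [h3]
        exact mul_le_mul_of_nonneg_right (by linarith) (Nat.cast_nonneg n)
      obtain ⟨k1, k2⟩ := a2 s hs h2
      exact ⟨k1.trans (mul_le_mul_of_nonneg_right he1 hs.le),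
        k2.trans (mul_le_mul_of_nonneg_right he1 (by positivity))⟩
  · intro δ ε h0 h1 hε
    obtain ⟨n₀, hn₀⟩ := eventually_atTop.1 (canon h0 h1 hε)
    refine ⟨n₀, fun n hn t ht k hk1 hk2 => ?_⟩
    rw [ht] at hk1 hk2 ⊢
    rw [codeProb_eq]
    rw [c_mul] at hk2
    exact hn₀ n hn k hk1 hk2
  · intro δ x h0 h1 hx hxc
    have h2 : x * Real.log 2 < cE δ := by
      rw [← c_mul]
      exact mul_lt_mul_of_pos_right hxc hl2
    refine (mx_asymp h0 h1 (show 0 < x * Real.log 2 by positivity) h2).congr fun n => ?_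
    rw [mx_eq]
    rfl
  · intro δ x h0 h1 hx hxg
    rw [Metric.tendsto_atTop]
    intro ε hε
    obtain ⟨n₀, hn₀⟩ := eventually_atTop.1 (hrate δ x (ε / 2) h0 h1 hx (by positivity))
    refine ⟨n₀, fun n hn => ?_⟩
    obtain ⟨a1, a2⟩ := hn₀ n hn
    rw [max_eq_left (by linarith)] at a2
    rw [Real.dist_eq, abs_lt]
    constructor <;> linarith
  · intro n t lam hn hl
    exact mean_A t hn hl
  · intro δ x h0 h1 hx
    have hb1 : ∀ᶠ n : ℕ in atTop, -2 ≤ gasRate δ x n ∧ gasRate δ x n ≤ 2 := by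
      filter_upwards [eventually_ge_atTop 2] with n hn
      obtain ⟨r1, r2, r3, r4⟩ := rates h0 hx hn
      have hnR : (2 : ℝ) ≤ n := by exact_mod_cast hn
      have e1 : 1 / (n : ℝ) ≤ 1 := by rw [div_le_one (by linarith)]; linarith
      have e2 : 2 / (n : ℝ) ≤ 2 := by rw [div_le_iff₀ (by linarith)]; linarith
      constructor <;> linarith
    have hb2 : ∀ᶠ n : ℕ in atTop, -2 ≤ Real.logb 2 (A n ⌈δ * n⌉₊) / (n : ℝ) ∧
        Real.logb 2 (A n ⌈δ * n⌉₊) / (n : ℝ) ≤ 2 := by
      filter_upwards [eventually_ge_atTop 2] with n hn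
      obtain ⟨r1, r2, r3, r4⟩ := rates h0 hx hn
      constructor <;> linarith
    have k1 := limsup_close hb1 hb2 (fun ε hε => by
      filter_upwards [eventually_ge_atTop 2, ev_inv (C := 1) hε] with n hn hi
      obtain ⟨r1, r2, r3, r4⟩ := rates h0 hx hn
      linarith)
    have k2 := limsup_close hb2 hb1 (fun ε hε => by
      filter_upwards [eventually_ge_atTop 2, ev_inv (C := 2) hε] with n hn hi
      obtain ⟨r1, r2, r3, r4⟩ := rates h0 hx hn
      linarith)
    exact ⟨le_antisymm k1.1 k2.1, le_antisymm k1.2 k2.2⟩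

end Pool.Agent.Results.MP_0430e4_lc.EquationOfState
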