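import Pool.Agent.Run7.h779.LH.Param

/-!
# MP_0430e4_lc: the linear programming hierarchy for linear codes stays above Gilbert-Varshamov

The hierarchy of Coregliano, Jeronimo and Jones and of Loyfer and Linial for binary linear codes of
length `n` and minimum distance `d`: the variables of level `ℓ` are the values `a(X)`,
`X = (x 1, ..., x ℓ)` a tuple of words, where `a(X) = 1` if all `x i` are in the code and `a(X) = 0`
otherwise is the intended solution. The value `LP ℓ n d` bounds the `ℓ`-th power of the number of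
codewords; level one is Delsarte's linear program. The hierarchy is complete, and it was hoped that
its fixed levels improve the known upper bounds for the rate of linear codes, perhaps down to the
bound of Gilbert and Varshamov.

We show that the exponent of the bound `(LP ℓ n d) ^ (1 / ℓ)` is at least
`1 - H(δ) + c / ℓ` for every level `ℓ`, where `c > 0` depends only on `δ = d / n`, and this holds
uniformly for all levels `ℓ ≤ ε √n`.

The proof: let `C` be a random linear code of small positive rate, with minimum distance at least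
`d`, `Q` the quotient by `C`, and `P` the set of the cosets of the words of weight less than `d`. Put
`a(X) = ρ ^ r` if the span of `X` modulo `C` has dimension `r` and no nonzero coset in `P`, and
`a(X) = 0` otherwise, where `ρ` is larger than the inverse of the volume `V` of the ball by the
factor `2 ^ (c n / ℓ)`. The Fourier transform of `a` is expanded along the kernels of the tuples and
along linearly independent sets of bad combinations: the independent sets give products of
exponential sums over `P`, which are exponentially small compared with `|P|` because `C` has large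
dual distance, and the dependent sets are bounded by a count of additive triples in `P`, again by
the exponential sums.
-/

set_option autoImplicit false

open Filter Topology

namespace Pool.Agent.Results.MP_0430e4_lc.LinearCodeHierarchy

/-- The sign `(-1) ^ z`. -/
def sign (z : ZMod 2) : ℝ := if z = 0 then 1 else -1

/-- The feasible solutions of level `ℓ` of the linear programming hierarchy for binary linear codes
of length `n` and minimum distance at least `d`: functions of `ℓ`-tuples of words, with `a(0) = 1`,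
`a ≥ 0`, `a(X) = 0` if the span of `X` contains a nonzero word of weight less than `d`, `a(X)`
depends only on the span of `X`, and the Fourier transform of `a` is nonnegative. -/
structure IsFeasible (ℓ n d : ℕ) (a : (Fin ℓ → Fin n → ZMod 2) → ℝ) : Prop where
  zero : a 0 = 1
  nonneg : ∀ X, 0 ≤ a X
  dist : ∀ X, ∀ v ∈ Submodule.span (ZMod 2) (Set.range X), v ≠ 0 → hammingNorm v < d → a X = 0
  span : ∀ X X', Submodule.span (ZMod 2) (Set.range X) = Submodule.span (ZMod 2) (Set.range X') →
    a X = a X'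
  fourier : ∀ Y : Fin ℓ → Fin n → ZMod 2, 0 ≤ ∑ X, a X * sign (∑ i, ∑ j, Y i j * X i j)

/-- The value of level `ℓ`: the largest value of `∑ a(X)`. -/
noncomputable def LP (ℓ n d : ℕ) : ℝ :=
  sSup {v : ℝ | ∃ a, IsFeasible ℓ n d a ∧ v = ∑ X, a X}

/-- The binary entropy function. -/
noncomputable def H (x : ℝ) : ℝ := -x * Real.logb 2 x - (1 - x) * Real.logb 2 (1 - x)

/-- The gain over the bound of Gilbert and Varshamov, for a parameter `ω`. -/
noncomputable def gain (δ ω : ℝ) : ℝ :=
  min (1 - H δ - H ω) (-ω * Real.logb 2 (1 - 2 * δ * (1 - δ)))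

open Run7.h779

lemma feas_iff (ℓ n d : ℕ) (a : (Fin ℓ → Fin n → ZMod 2) → ℝ) :
    IsFeasible ℓ n d a ↔ LH.Feas ℓ n d a :=
  ⟨fun h => ⟨h.zero, h.nonneg, h.dist, h.span, h.fourier⟩,
    fun h => ⟨h.zero, h.nonneg, h.dist, h.span, h.fourier⟩⟩

lemma LP_eq (ℓ n d : ℕ) : LP ℓ n d = LH.LPv ℓ n d := by
  unfold LP LH.LPv
  simp only [feas_iff]

lemma H_eq (x : ℝ) : H x = Real.binEntropy x / Real.log 2 := by
  unfold H Real.binEntropy Real.logb
  rw [Real.log_inv, Real.log_inv]
  ring

lemma gain_pos (δ : ℝ) (h0 : 0 < δ) (h1 : δ < 1 / 2) : ∃ ω : ℝ, 0 < ω ∧ ω < 1 / 2 ∧ 0 < gain δ ω := by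
  have hl2 : 0 < Real.log 2 := Real.log_pos (by norm_num)
  have hδ : H δ < 1 := by
    rw [H_eq, div_lt_one hl2]
    refine Real.binEntropy_lt_log_two.2 fun h => ?_
    rw [h] at h1
    norm_num at h1
  have hcont : Tendsto (fun ω : ℝ => H ω) (𝓝[>] 0) (𝓝 0) := by
    have h2 : Tendsto (fun ω : ℝ => Real.binEntropy ω / Real.log 2) (𝓝 0) (𝓝 0) := by
      have := (Real.binEntropy_continuous.tendsto 0).div_const (Real.log 2)
      simpa using this
    simp_rw [H_eq]
    exact h2.mono_left nhdsWithin_le_nhds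
  have h3 : ∀ᶠ ω in 𝓝[>] (0 : ℝ), H ω < 1 - H δ :=
    (tendsto_order.1 hcont).2 _ (by linarith)
  have h4 : ∀ᶠ ω in 𝓝[>] (0 : ℝ), ω ∈ Set.Ioo (0 : ℝ) (1 / 2) :=
    Ioo_mem_nhdsGT (by norm_num)
  obtain ⟨ω, hω1, hω2⟩ := (h3.and h4).exists
  refine ⟨ω, hω2.1, hω2.2, ?_⟩
  unfold gain
  refine lt_min (by linarith) ?_
  have h5 : Real.logb 2 (1 - 2 * δ * (1 - δ)) < 0 :=
    Real.logb_neg (by norm_num) (by nlinarith) (by nlinarith)
  have := hω2.1
  nlinarith

/-- **Every level of the hierarchy stays above the bound of Gilbert and Varshamov.** -/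
theorem result :
    (∀ (ℓ n d : ℕ) (C : Submodule (ZMod 2) (Fin n → ZMod 2)),
      (∀ x ∈ C, x ≠ 0 → d ≤ hammingNorm x) → (Nat.card C : ℝ) ^ ℓ ≤ LP ℓ n d) ∧
    (∀ ℓ m n d : ℕ, LP (ℓ + m) n d ≤ LP ℓ n d * LP m n d) ∧
    (∀ δ : ℝ, 0 < δ → δ < 1 / 2 → ∃ ω : ℝ, 0 < ω ∧ ω < 1 / 2 ∧ 0 < gain δ ω) ∧
    ∀ δ ω c : ℝ, 0 < δ → δ < 1 / 2 → 0 < ω → ω < 1 / 2 → 0 < c → c < gain δ ω →
      ∃ ε : ℝ, 0 < ε ∧ ∃ n₀ : ℕ, ∀ n ≥ n₀, ∀ ℓ : ℕ, 1 ≤ ℓ → (ℓ : ℝ) ≤ ε * √n →
        (2 : ℝ) ^ ((ℓ * (1 - H δ) + c) * n) ≤ LP ℓ n ⌈δ * n⌉₊ := by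
  simp_rw [LP_eq]
  exact ⟨LH.code_le, LH.LPv_mul, gain_pos, fun δ ω c h0 h1 h2 h3 h4 h5 =>
    LH.lower h0 h1 h2 h3 h4 h5⟩

end Pool.Agent.Results.MP_0430e4_lc.LinearCodeHierarchy
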