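import Pool.Agent.Run7.h748.Disc.Sub
import Pool.Agent.Run7.h748.Codes.LocalFinal

/-!
# MP_0430e4_lc: the bound of Gilbert and Varshamov and the entropy of noisy codewords

`Ent p C` is the entropy (in bits) of a uniformly random word of the code `C` after transmission over
the binary symmetric channel with crossover probability `p`, and `n - Ent p C ≥ 0` is the entropy
deficit of the output. `D δ p` is the supremum of the `η` such that for every `c > 0` there are, for
infinitely many `n`, codes of relative distance `δ` and size at least `2^((1 - H(δ) - c) n)` with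
entropy deficit at least `η n`; for `Dlow` this is required for all large `n`. Put
`gain δ p = 1 - ((1 - 2 p) / (1 - 2 δ))²`.

1. For `δ < p < 1/2` and `θ < gain δ p` there is a constant `B` such that every code `C` of length `n`
   and minimum distance at least `δ n` satisfies
   `2^(θ (n - Ent p C)) * min (|C|, 2^((1 - H(δ)) n)) ≤ B * A(n, ⌈δ n⌉)`.
2. `(1 - H(p)) (R(δ) - (1 - H(δ))) ≤ D δ p ≤ (R(δ) - (1 - H(δ))) / gain δ p` for `δ < p < 1/2`.
3. So, for each `p` with `δ < p < 1/2`, the bound of Gilbert and Varshamov is sharp for `R(δ)` if and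
   only if `D δ p = 0`: the output of the channel has entropy `(1 - o(1)) n` for all codes which reach
   this bound. If this holds for one such `p`, then it holds for all of them.
4. The distance is the threshold: `D δ p ≥ H(δ) - H(p) > 0` for `0 < p < δ`.
5. Codes with local structure: `R(δ) ≥ min (R_{k,ε}(δ), 1 - H(δ)) + ε/2 * (((1 - 2 δ) / 2)^(2 k) /
   (32 k))^k`, where `R_{k,ε}(δ)` is the rate of the codes whose `k`-local closure contains no subcube
   of dimension `(1 - ε) n` (for instance codes which are defined by constraints on at most `k`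
   coordinates each).

Proof of 1. Write the channel with crossover probability `p` as the composition of the channels with
crossover probabilities `δ` and `q = (p - δ) / (1 - 2 δ)`. For the second one, `K`, there is a reverse
inequality `∫ (K exp f)^(-a) dμ ≤ exp (- a ∫ f d(μ K))`, `a = (1 - 2 q)^(-2) - 1`, for all product
measures `μ` (for one letter, the logarithm of the left-hand side is a concave function of the
difference of the two values of `f`). With `exp f` the output distribution it shows that most words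
at distance at most `δ n` from a typical codeword lie in a set which is small if the entropy is
small. Replace a part of a best code by a translate of `C`.
-/

set_option autoImplicit false

open Filter Finset

namespace Pool.Agent.Results.MP_0430e4_lc.NoiseEntropy

/-- `A(n,d)`: the largest size of a binary code of length `n` with minimum distance at least `d`. -/
noncomputable def A (n d : ℕ) : ℕ :=
  sSup {m | ∃ C : Finset (Fin n → Bool),
    (∀ x ∈ C, ∀ y ∈ C, x ≠ y → d ≤ hammingDist x y) ∧ C.card = m}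

/-- The asymptotic rate `R(δ) = limsup (1/n) log₂ A(n, ⌈δ n⌉)`. -/
noncomputable def R (δ : ℝ) : ℝ :=
  limsup (fun n : ℕ => Real.logb 2 (A n ⌈δ * n⌉₊) / n) atTop

/-- `liminf (1/n) log₂ A(n, ⌈δ n⌉)`. -/
noncomputable def Rlow (δ : ℝ) : ℝ :=
  liminf (fun n : ℕ => Real.logb 2 (A n ⌈δ * n⌉₊) / n) atTop

/-- The binary entropy function `H₂(x) = - x log₂ x - (1 - x) log₂ (1 - x)`. -/
noncomputable def H (x : ℝ) : ℝ := -x * Real.logb 2 x - (1 - x) * Real.logb 2 (1 - x)

/-- The distribution of the output of the binary symmetric channel with crossover probability `p`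
for a uniformly random word of `C`. -/
noncomputable def out {n : ℕ} (p : ℝ) (C : Finset (Fin n → Bool)) (z : Fin n → Bool) : ℝ :=
  (∑ x ∈ C, ∏ i, if x i = z i then 1 - p else p) / C.card

/-- Its entropy in bits. -/
noncomputable def Ent {n : ℕ} (p : ℝ) (C : Finset (Fin n → Bool)) : ℝ :=
  -∑ z, out p C z * Real.logb 2 (out p C z)

/-- There is a code of length `n` with minimum distance at least `δ n`, size at least `2^(g n)` and
entropy deficit at least `η n`. -/
def Has (δ p g η : ℝ) (n : ℕ) : Prop :=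
  ∃ C : Finset (Fin n → Bool), (∀ x ∈ C, ∀ y ∈ C, x ≠ y → ⌈δ * n⌉₊ ≤ hammingDist x y) ∧
    C.Nonempty ∧ (2 : ℝ) ^ (g * n) ≤ C.card ∧ η * n ≤ n - Ent p C

/-- The entropy deficit of the codes which reach the bound of Gilbert and Varshamov. -/
noncomputable def D (δ p : ℝ) : ℝ :=
  sSup {η : ℝ | ∀ c : ℝ, 0 < c → ∃ᶠ n : ℕ in atTop, Has δ p (1 - H δ - c) η n}

/-- The same for all large `n`. -/
noncomputable def Dlow (δ p : ℝ) : ℝ :=
  sSup {η : ℝ | ∀ c : ℝ, 0 < c → ∀ᶠ n : ℕ in atTop, Has δ p (1 - H δ - c) η n}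

/-- The constant `1 - ((1 - 2 p) / (1 - 2 δ))²`. -/
noncomputable def gain (δ p : ℝ) : ℝ := 1 - ((1 - 2 * p) / (1 - 2 * δ)) ^ 2

/-- The `k`-local closure of `C`: the words which agree with some word of `C` on every set of at most
`k` coordinates. -/
def localClosure {n : ℕ} (k : ℕ) (C : Finset (Fin n → Bool)) : Set (Fin n → Bool) :=
  {x | ∀ S : Finset (Fin n), S.card ≤ k → ∃ y ∈ C, ∀ i ∈ S, y i = x i}

/-- The subcube of the words which agree with `b` outside `T`; its dimension is `|T|`. -/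
def subcube {n : ℕ} (T : Finset (Fin n)) (b : Fin n → Bool) : Set (Fin n → Bool) :=
  {x | ∀ i ∉ T, x i = b i}

/-- `A_{k,ε}(n,d)`: the largest size of a binary code of length `n` with minimum distance at least
`d` whose `k`-local closure contains no subcube of dimension at least `(1 - ε) n`. -/
noncomputable def Aloc (k : ℕ) (ε : ℝ) (n d : ℕ) : ℕ :=
  sSup {m | ∃ C : Finset (Fin n → Bool),
    (∀ x ∈ C, ∀ y ∈ C, x ≠ y → d ≤ hammingDist x y) ∧
    (∀ (T : Finset (Fin n)) (b : Fin n → Bool), subcube T b ⊆ localClosure k C →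
      (T.card : ℝ) < (1 - ε) * n) ∧ C.card = m}

/-- The asymptotic rate of these codes, `R_{k,ε}(δ) = limsup (1/n) log₂ A_{k,ε}(n, ⌈δ n⌉)`. -/
noncomputable def Rloc (k : ℕ) (ε δ : ℝ) : ℝ :=
  limsup (fun n : ℕ => Real.logb 2 (Aloc k ε n ⌈δ * n⌉₊) / n) atTop

open Pool.Agent.Results.MP_0430e4_lc.ConstantWeightCriterion (rateA bdd_le bdd_ge) in
/-- the upper limit -/
lemma upper_limit {δ p : ℝ} (h0 : 0 < δ) (h1 : δ < p) (h2 : p < 1 / 2) :
    (1 - H p) * (R δ - (1 - H δ)) ≤ D δ p ∧ gain δ p * D δ p ≤ R δ - (1 - H δ) := by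
  have hb : ∀ n : ℕ, 0 ≤ Real.logb 2 (A n ⌈δ * n⌉₊ : ℝ) / n ∧
      Real.logb 2 (A n ⌈δ * n⌉₊ : ℝ) / n ≤ 1 := fun n => rateA δ n
  have hle := isBoundedUnder_of (f := (atTop : Filter ℕ)) (r := (· ≤ ·))
    (u := fun n : ℕ => Real.logb 2 (A n ⌈δ * n⌉₊ : ℝ) / n) ⟨1, fun n => (hb n).2⟩
  have hge := isCoboundedUnder_le_of_le (atTop : Filter ℕ) (x := 0)
    (f := fun n : ℕ => Real.logb 2 (A n ⌈δ * n⌉₊ : ℝ) / n) fun n => (hb n).1
  exact Run7.h748.Disc.two_sided h0 h1 h2 (fun P => ∃ᶠ n in atTop, P n) (R δ)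
    (fun P Q hP hPQ => (hP.and_eventually hPQ).mono fun n hn => hn.2 hn.1)
    (fun x hx => (frequently_lt_of_lt_limsup hge hx).mono fun n hn => hn.le)
    (fun x hx => le_limsup_of_frequently_le hx hle)
    (fun P hP => hP.frequently)
    (fun P hP => by
      obtain ⟨n, hn, h⟩ := (hP.and_eventually (eventually_ge_atTop 1)).exists
      exact ⟨n, h, hn⟩)

open Pool.Agent.Results.MP_0430e4_lc.ConstantWeightCriterion (rateA bdd_le bdd_ge) in
/-- the lower limit -/
lemma lower_limit {δ p : ℝ} (h0 : 0 < δ) (h1 : δ < p) (h2 : p < 1 / 2) :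
    (1 - H p) * (Rlow δ - (1 - H δ)) ≤ Dlow δ p ∧ gain δ p * Dlow δ p ≤ Rlow δ - (1 - H δ) := by
  have hb : ∀ n : ℕ, 0 ≤ Real.logb 2 (A n ⌈δ * n⌉₊ : ℝ) / n ∧
      Real.logb 2 (A n ⌈δ * n⌉₊ : ℝ) / n ≤ 1 := fun n => rateA δ n
  have hge := isBoundedUnder_of (f := (atTop : Filter ℕ)) (r := (· ≥ ·))
    (u := fun n : ℕ => Real.logb 2 (A n ⌈δ * n⌉₊ : ℝ) / n) ⟨0, fun n => (hb n).1⟩
  have hle := isCoboundedUnder_ge_of_le (atTop : Filter ℕ) (x := 1)
    (f := fun n : ℕ => Real.logb 2 (A n ⌈δ * n⌉₊ : ℝ) / n) fun n => (hb n).2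
  exact Run7.h748.Disc.two_sided h0 h1 h2 (fun P => ∀ᶠ n in atTop, P n) (Rlow δ)
    (fun P Q hP hPQ => by filter_upwards [hP, hPQ] with n h1 h2 using h2 h1)
    (fun x hx => (eventually_lt_of_lt_liminf hx hge).mono fun n hn => hn.le)
    (fun x hx => le_liminf_of_le hle hx)
    (fun P hP => hP)
    (fun P hP => by
      obtain ⟨n, hn, h⟩ := (hP.and (eventually_ge_atTop 1)).exists
      exact ⟨n, h, hn⟩)

lemma H_lt {p : ℝ} (h1 : p < 1 / 2) : H p < 1 := by
  have e : H p = Real.binEntropy p / Real.log 2 :=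
    Pool.Agent.Results.MP_0430e4_lc.ConstantWeightCriterion.H_eq' p
  rw [e, div_lt_one (Real.log_pos (by norm_num))]
  exact Real.binEntropy_lt_log_two.2 (by rw [one_div] at h1; exact h1.ne)

lemma H_mono {p q : ℝ} (h0 : 0 < p) (h : p < q) (h1 : q < 1 / 2) : H p < H q := by
  have e : ∀ x, H x = Real.binEntropy x / Real.log 2 :=
    Pool.Agent.Results.MP_0430e4_lc.ConstantWeightCriterion.H_eq'
  rw [e, e]
  apply div_lt_div_of_pos_right _ (Real.log_pos (by norm_num))
  rw [one_div] at h1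
  exact Real.binEntropy_strictMonoOn ⟨h0.le, (h.trans h1).le⟩ ⟨(h0.trans h).le, h1.le⟩ h

lemma criterion {a g e d : ℝ} (ha : 0 < a) (hg : 0 < g) (h1 : a * d ≤ e) (h2 : g * e ≤ d) :
    d = 0 ↔ e = 0 := by
  constructor
  · rintro rfl
    rw [mul_zero] at h1
    have : e ≤ 0 := by
      by_contra hcon
      rw [not_le] at hcon
      have := mul_pos hg hcon
      linarith
    linarith
  · rintro rfl
    rw [mul_zero] at h2
    have : d ≤ 0 := by
      by_contra hcon
      rw [not_le] at hcon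
      have := mul_pos ha hcon
      linarith
    linarith

/-- **The bound of Gilbert and Varshamov and the entropy of noisy codewords.** -/
theorem result (δ : ℝ) (h0 : 0 < δ) (h1 : δ < 1 / 2) :
    (∀ p : ℝ, δ < p → p < 1 / 2 →
      0 < gain δ p ∧
      (∀ θ : ℝ, 0 ≤ θ → θ < gain δ p → ∃ B : ℝ, 0 < B ∧ ∀ n : ℕ, 1 ≤ n →
        ∀ C : Finset (Fin n → Bool), (∀ x ∈ C, ∀ y ∈ C, x ≠ y → ⌈δ * n⌉₊ ≤ hammingDist x y) →
        C.Nonempty →
        (2 : ℝ) ^ (θ * (n - Ent p C)) * min (C.card : ℝ) ((2 : ℝ) ^ ((1 - H δ) * n)) ≤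
          B * A n ⌈δ * n⌉₊) ∧
      (1 - H p) * (R δ - (1 - H δ)) ≤ D δ p ∧ gain δ p * D δ p ≤ R δ - (1 - H δ) ∧
      (1 - H p) * (Rlow δ - (1 - H δ)) ≤ Dlow δ p ∧
      gain δ p * Dlow δ p ≤ Rlow δ - (1 - H δ) ∧
      (R δ = 1 - H δ ↔ D δ p = 0) ∧ (Rlow δ = 1 - H δ ↔ Dlow δ p = 0)) ∧
    (∀ p : ℝ, 0 < p → p < δ → 0 < H δ - H p ∧ H δ - H p ≤ Dlow δ p ∧ H δ - H p ≤ D δ p) ∧
    (∀ k : ℕ, 1 ≤ k → ∀ ε : ℝ, 0 < ε → ε < 1 →
      min (Rloc k ε δ) (1 - H δ) + ε / 2 * (((1 - 2 * δ) / 2) ^ (2 * k) / (32 * k)) ^ k ≤ R δ) := by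
  refine ⟨?_, ?_, ?_⟩
  · intro p hp1 hp2
    have hg : 0 < gain δ p := Run7.h748.Disc.th_pos hp1 hp2
    have hH : 0 < 1 - H p := by
      have := H_lt hp2
      linarith
    obtain ⟨a1, a2⟩ := upper_limit h0 hp1 hp2
    obtain ⟨b1, b2⟩ := lower_limit h0 hp1 hp2
    refine ⟨hg, ?_, a1, a2, b1, b2, ?_, ?_⟩
    · intro θ hθ0 hθ
      exact Run7.h748.Disc.inequality h0 hp1 hp2 hθ0 hθ
    · rw [← criterion hH hg a1 a2, sub_eq_zero]
    · rw [← criterion hH hg b1 b2, sub_eq_zero]
  · intro p hp0 hp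
    have e1 := H_mono hp0 hp h1
    refine ⟨by linarith, ?_, ?_⟩
    · exact Run7.h748.Disc.subcritical h0 h1 hp0 (by linarith) (fun P => ∀ᶠ n in atTop, P n)
        (fun P hP => hP)
        (fun P hP => by
          obtain ⟨n, hn, h⟩ := (hP.and (eventually_ge_atTop 1)).exists
          exact ⟨n, h, hn⟩)
    · exact Run7.h748.Disc.subcritical h0 h1 hp0 (by linarith) (fun P => ∃ᶠ n in atTop, P n)
        (fun P hP => hP.frequently)
        (fun P hP => by
          obtain ⟨n, hn, h⟩ := (hP.and_eventually (eventually_ge_atTop 1)).exists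
          exact ⟨n, h, hn⟩)
  · intro k hk ε hε hε1
    exact Run7.h748.Codes.LocalFinal.local_rate k hk ε δ hε hε1 h0 h1

end Pool.Agent.Results.MP_0430e4_lc.NoiseEntropy
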