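import Pool.Agent.Run7.h505.TI.P
import Pool.Agent.Run7.h505.RT.W
import Pool.Agent.Run7.h505.RW.F

/-!
# MP_0430e4_lc: good and bad ideals of binary group algebras of 2-groups

A binary code of length `|G|` which is invariant under the regular action of a finite group `G` is
a left ideal of `F₂[G]`. We consider 2-groups.

(1) *Large abelianization is bad.* For every `ρ > 0` and `M` there is `N` such that for every
finite 2-group `G` with `|G / [G, G]| ≥ N` every left ideal `C` of rate at least `ρ` contains all
words that are constant on the cosets of some normal subgroup of index at least `M`. In particular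
`C` has a nonzero word of weight at most `|G| / M`.

(2) *Good groups.* For every `m` there are `r, e > 0` such that a finite 2-group `G` with an
abelian subgroup `A` of index at most `m` has a left ideal of dimension at least `r |G|` in which
all nonzero words have weight greater than `e |G|`, if
(a) `A` is generated by two elements and `|G / [G, G]| ≤ m`, or
(b) `G` has a subgroup of order at most `m` whose normal closure has index at most `m` (for example
if `A` is normal and `G = A H` with `|H|` and `|G / [G, G]|` bounded), or
(c) `G` has coclass at most `m`, that is, `|G| ≤ 2^(c + m)` where `c` is the nilpotency class.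

(3) If `G` has a cyclic subgroup of index at most `m` and `|G / [G, G]| ≤ M` then there is a left
ideal of rate at least `1 / (m!³ M)` in which all nonzero words have weight greater than
`|G| / 128`.

(4) The same for all 2-groups with `|G / [G, G]| ≤ 4` (rate at least `1/32`).

So a family of 2-groups as in (a) has an asymptotically good family of left ideals if and only if
the orders of the abelianizations are bounded (or a subfamily has this property), and for all
2-groups the boundedness is necessary.

Proof. (1) `G` maps onto `(ℤ/2)^d` with `d` large or onto a large cyclic group `ℤ/2^k`, and the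
rate does not decrease if we pass to the words which come from a quotient. In the first case we use
a theorem on translation-invariant codes on `F₂^d` (density increment), in the second case the fact
that the invariant codes of `ℤ/2^k` form a chain.

(2) In all cases there is a subgroup `H` of bounded order whose normal closure has bounded index: in
case (a) and (c) some `t` in `G` of bounded order commutes with few elements of `A` only, and we let
`H` be the subgroup generated by `t`. (In case (c) we may assume that `A` is normal. Let `t` be
central modulo `A`, and `t ∉ A`. The centralizer of `t` in `A` and the group of commutators `[A, t]`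
are normal subgroups with an intersection of bounded order, so one of them has bounded order since
`G` has bounded coclass. If `[A, t]` has bounded order we replace `G` and `A` by the quotients of
`G` and of `⟨A, t⟩` by `[A, t]` and use induction on the index of `A`.) Boundedly many conjugates of
`H` generate its normal closure. The code consists of the words `w` such that `w b` is fixed by `H`,
where `b` is random. For a word `w` whose translates by elements of `A` span a space of dimension
`r`, the probability that `w` is a code word is exponentially small in `r`. It has to be shown that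
there are at most `2^(ε r)` words `w` of small weight and dimension `r`, up to translation. Let `I`
be the ideal of polynomials in `d` variables that annihilate `w`, and `Δ` the set of its standard
monomials. The dyadic shape of `Δ` can be chosen in `2^((log r + 2)^d)` ways. If `u` is the
difference of two words with the same shape then the product of their ideals annihilates `u`, so
all standard monomials of `u` are in a set `E` of at most `4^d r` exponents which depends on the
shape only, and `u` is determined by its values at the places of `E` (in every coset of `A`). For a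
suitable translate of `w` most of these values are zero.

(3), (4) The main case is the dihedral group `D` of order `2^(k+1)`, where the rate `1/2` is
reached. In general `G` has a dihedral quotient of order at least `|G|` divided by a constant (this
uses the transfer), or `|G|` is bounded.
-/

namespace Pool.Agent.Results.MP_0430e4_lc.TwoGroupCodes

/-- The Hamming weight of a word with coordinates in `Y`. -/
def weight {Y : Type} [Fintype Y] (c : Y → ZMod 2) : ℕ := (Finset.univ.filter fun y => c y ≠ 0).card

/-- Codes of length `|G|` that are invariant under left translations (left ideals of `F₂[G]`). -/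
def Invariant {G : Type} [Group G] (C : Submodule (ZMod 2) (G → ZMod 2)) : Prop :=
  ∀ c ∈ C, ∀ g : G, (fun x => c (g * x)) ∈ C

open Run7.h505.TI in
theorem result :
    -- (1) large abelianization
    (∀ (ρ : ℝ) (M : ℕ), 0 < ρ → ∃ N : ℕ, ∀ (G : Type) [Group G] [Fintype G],
      IsPGroup 2 G → N ≤ Nat.card (Abelianization G) →
      ∀ C : Submodule (ZMod 2) (G → ZMod 2), Invariant C →
        ρ * Fintype.card G ≤ Module.finrank (ZMod 2) C →
        (∃ H : Subgroup G, H.Normal ∧ M ≤ H.index ∧
          ∀ c : G → ZMod 2, (∀ x, ∀ h ∈ H, c (x * h) = c x) → c ∈ C) ∧
        ∃ c ∈ C, c ≠ 0 ∧ weight c * M ≤ Fintype.card G) ∧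
    -- (2) an abelian subgroup of small index, and one of three conditions
    (∀ m : ℕ, ∃ r e : ℝ, 0 < r ∧ 0 < e ∧ ∀ (G : Type) [Group G] [Fintype G],
      IsPGroup 2 G →
      ((∃ g h : G, Commute g h ∧ (Subgroup.closure {g, h}).index ≤ m ∧
        Nat.card (Abelianization G) ≤ m) ∨
      ∃ A : Subgroup G, (∀ a ∈ A, ∀ b ∈ A, a * b = b * a) ∧ A.index ≤ m ∧
        ((∃ H : Subgroup G, Nat.card H ≤ m ∧
          (Subgroup.normalClosure (H : Set G)).index ≤ m) ∨
        Nat.card G ≤ 2 ^ (Group.nilpotencyClass G + m))) →
      ∃ C : Submodule (ZMod 2) (G → ZMod 2), Invariant C ∧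
        r * Fintype.card G ≤ Module.finrank (ZMod 2) C ∧
        ∀ c ∈ C, c ≠ 0 → e * Fintype.card G < weight c) ∧
    -- (3) small abelianization and a cyclic subgroup of small index
    (∀ (m M : ℕ) (G : Type) [Group G] [Fintype G],
      IsPGroup 2 G → (∃ A : Subgroup G, IsCyclic A ∧ A.index ≤ m) →
      Nat.card (Abelianization G) ≤ M →
      ∃ C : Submodule (ZMod 2) (G → ZMod 2), Invariant C ∧
        Fintype.card G ≤ m.factorial ^ 3 * M * Module.finrank (ZMod 2) C ∧
        ∀ c ∈ C, c ≠ 0 → Fintype.card G < 128 * weight c) ∧
    -- (4) abelianization of order at most four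
    (∀ (G : Type) [Group G] [Fintype G], IsPGroup 2 G → Nat.card (Abelianization G) ≤ 4 →
      ∃ C : Submodule (ZMod 2) (G → ZMod 2), Invariant C ∧
        Fintype.card G ≤ 32 * Module.finrank (ZMod 2) C ∧
        ∀ c ∈ C, c ≠ 0 → Fintype.card G < 128 * weight c) := by
  classical
  refine ⟨?_, ?_, ?_, ?_⟩
  · intro ρ M hρ
    obtain ⟨N, hN⟩ := main_ab ρ hρ M
    refine ⟨N, ?_⟩
    intro G _ _ hG hab C hC hr
    obtain ⟨A, _, _, ψ, hψ, hA, hall⟩ := hN G hG hab C hC (by rwa [Nat.card_eq_fintype_card])
    have hidx : M ≤ ψ.ker.index := by
      rw [Subgroup.index_ker, MonoidHom.range_eq_top.2 hψ,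
        Nat.card_congr (Subgroup.topEquiv (G := A)).toEquiv, hA]
      exact Nat.lt_two_pow_self.le
    have hH : ∀ c : G → ZMod 2, (∀ x, ∀ h ∈ ψ.ker, c (x * h) = c x) → c ∈ C := by
      intro c hc
      choose s hs using hψ
      have h1 := hall fun a => c (s a)
      have h2 : (fun x => c (s (ψ x))) = c := by
        funext x
        have h3 : x⁻¹ * s (ψ x) ∈ ψ.ker := by
          rw [MonoidHom.mem_ker, map_mul, map_inv, hs, inv_mul_cancel]
        have h4 := hc x _ h3
        rwa [mul_inv_cancel_left] at h4
      rwa [h2] at h1
    refine ⟨⟨ψ.ker, inferInstance, hidx, hH⟩, ?_⟩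
    let c : G → ZMod 2 := fun x => if x ∈ ψ.ker then 1 else 0
    refine ⟨c, hH c ?_, ?_, ?_⟩
    · intro x h hh
      have : x * h ∈ ψ.ker ↔ x ∈ ψ.ker := Subgroup.mul_mem_cancel_right _ hh
      simp only [c, this]
    · intro h0
      have := congrFun h0 1
      simp [c] at this
    · have hw : weight c = Nat.card ψ.ker := by
        unfold weight
        rw [Nat.card_eq_fintype_card, Fintype.card_subtype]
        congr 1
        ext x
        simp [c]
      rw [hw]
      calc Nat.card ψ.ker * M ≤ Nat.card ψ.ker * ψ.ker.index := Nat.mul_le_mul_left _ hidx
        _ = Nat.card G := Subgroup.card_mul_index _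
        _ = Fintype.card G := Nat.card_eq_fintype_card
  · intro m
    obtain ⟨r, e, hr, he, h⟩ := Run7.h505.RW.good_three (ZMod 2) 2 m
    refine ⟨r, e, hr, he, ?_⟩
    intro G _ _ hG hcase
    obtain ⟨C, hC1, hC2, hC3⟩ := h G hG hcase
    refine ⟨C, hC1, hC2, fun c hc hc0 => ?_⟩
    have h1 := hC3 c hc hc0
    have h2 : Run7.h505.RT.wt c = weight c := by
      unfold Run7.h505.RT.wt weight
      congr!
    rwa [h2] at h1
  · intro m M G _ _ hG hA hM
    obtain ⟨A, hA, hAm⟩ := hA
    exact good m M G hG A hA hAm hM
  · intro G _ _ hG hab
    obtain ⟨g, hg⟩ := cyclic_of_ab (Nat.card G) G hG rfl hab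
    obtain ⟨C, h1, h2, h3⟩ := good 2 4 G hG (Subgroup.zpowers g) inferInstance hg hab
    exact ⟨C, h1, by simpa using h2, h3⟩

end Pool.Agent.Results.MP_0430e4_lc.TwoGroupCodes
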